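import Pool.Agent.Pow3.Main

set_option autoImplicit false

/-! # Few small gaps between 3-powerful numbers: the sum over the blocks (helper87) -/

namespace Pool.Agent.Pow3

open Finset

theorem term_eq {x h κ : ℝ} (e : ℕ) (hx : 0 < x) (hh : 0 < h) :
    x * (h / x ^ e) ^ κ = h ^ κ * x ^ (1 - e * κ) := by
  rw [Real.div_rpow hh.le (by positivity), ← Real.rpow_natCast x e, ← Real.rpow_mul hx.le,
    Real.rpow_sub hx, Real.rpow_one]
  ring

/-- Geometric sums over the dyadic scales up to `M`. -/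
theorem dyadic (e : ℕ) (κ : ℝ) (hκ : (e : ℝ) * κ < 1) :
    ∃ C : ℝ, 0 < C ∧ ∀ (M : ℕ) (h : ℝ), 1 ≤ M → 0 < h →
      ∑ i ∈ range (Nat.log 2 M + 1), (2 : ℝ) ^ i * (h / ((2 : ℝ) ^ i) ^ e) ^ κ ≤
        C * (M * (h / (M : ℝ) ^ e) ^ κ) := by
  set p : ℝ := 1 - e * κ with hp
  have hp0 : 0 < p := by linarith
  set q : ℝ := (2 : ℝ) ^ p with hq
  have hq1 : 1 < q := Real.one_lt_rpow (by norm_num) hp0
  refine ⟨q / (q - 1), by have : 0 < q - 1 := by linarith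
                          positivity, ?_⟩
  intro M h hM hh
  have hM0 : (0 : ℝ) < M := by exact_mod_cast hM
  set I := Nat.log 2 M with hI
  have hIM : (2 : ℝ) ^ I ≤ M := by
    have : 2 ^ I ≤ M := Nat.pow_log_le_self 2 (by omega)
    exact_mod_cast this
  have hqpow : ∀ i : ℕ, ((2 : ℝ) ^ i) ^ p = q ^ i := by
    intro i
    rw [hq, ← Real.rpow_natCast, ← Real.rpow_natCast, ← Real.rpow_mul (by norm_num),
      ← Real.rpow_mul (by norm_num), mul_comm]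
  have h1 : ∑ i ∈ range (I + 1), (2 : ℝ) ^ i * (h / ((2 : ℝ) ^ i) ^ e) ^ κ =
      h ^ κ * ∑ i ∈ range (I + 1), q ^ i := by
    rw [Finset.mul_sum]
    apply Finset.sum_congr rfl
    intro i _
    rw [term_eq e (by positivity) hh, ← hp, hqpow]
  have hq10 : 0 < q - 1 := by linarith
  have h2 : ∑ i ∈ range (I + 1), q ^ i ≤ q / (q - 1) * (M : ℝ) ^ p := by
    rw [geom_sum_eq hq1.ne']
    calc (q ^ (I + 1) - 1) / (q - 1) ≤ q ^ (I + 1) / (q - 1) := by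
          gcongr; linarith
      _ = q / (q - 1) * q ^ I := by rw [pow_succ]; ring
      _ = q / (q - 1) * ((2 : ℝ) ^ I) ^ p := by rw [hqpow]
      _ ≤ q / (q - 1) * (M : ℝ) ^ p := by
          gcongr
  have hhκ : 0 < h ^ κ := Real.rpow_pos_of_pos hh _
  rw [h1, term_eq e hM0 hh, ← hp]
  calc h ^ κ * ∑ i ∈ range (I + 1), q ^ i ≤ h ^ κ * (q / (q - 1) * (M : ℝ) ^ p) := by gcongr
    _ = q / (q - 1) * (h ^ κ * (M : ℝ) ^ p) := by ring

/-- The main theorem for an enumeration. -/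
theorem final (σ : ℝ) (hσ0 : 0 < σ) (hσ : σ < 1 / 3) :
    ∃ C : ℝ, 0 < C ∧ ∀ (E : Enum) (M : ℕ) (h : ℝ), 1 ≤ M → 0 < h →
      (((range M).filter (fun m => (E.a (m + 1) : ℝ) - (E.a m : ℝ) ≤ h)).card : ℝ) ≤
        C * (M * ((h / (M : ℝ) ^ 2) ^ (3 * σ / (4 + 3 * σ)) +
          (h / (M : ℝ) ^ 3) ^ (σ / (6 + 3 * σ)))) := by
  obtain ⟨C, hC0, hC⟩ := count σ hσ0 hσ
  have hp : 0 < 4 + 3 * σ := by linarith
  have hq : 0 < 6 + 3 * σ := by linarith
  obtain ⟨C₂, hC₂, h₂⟩ := dyadic 2 (3 * σ / (4 + 3 * σ)) (by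
    push_cast; rw [← mul_div_assoc, div_lt_one hp]; linarith)
  obtain ⟨C₃, hC₃, h₃⟩ := dyadic 3 (σ / (6 + 3 * σ)) (by
    push_cast; rw [← mul_div_assoc, div_lt_one hq]; linarith)
  refine ⟨(5 * C + 17) * (C₂ + C₃), by positivity, ?_⟩
  intro E M h hM hh
  have hM0 : (0 : ℝ) < M := by exact_mod_cast hM
  have hsub : (range M).filter (fun m => (E.a (m + 1) : ℝ) - (E.a m : ℝ) ≤ h) ⊆
      (range (Nat.log 2 M + 1)).biUnion (fun i => E.Blk M ((2 : ℝ) ^ i) h) := by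
    intro m hm
    rw [Finset.mem_filter] at hm
    have hapos := E.a_pos m
    set i := Nat.log 8 (E.a m) with hi
    have h8 : 8 ^ i ≤ E.a m := Nat.pow_log_le_self 8 (by omega)
    have h8' : E.a m < 8 ^ (i + 1) := Nat.lt_pow_succ_log_self (by norm_num) _
    have hale : E.a m ≤ M ^ 3 :=
      (E.le m).trans (Nat.pow_le_pow_left (by have := Finset.mem_range.1 hm.1; omega) 3)
    have h2i : 2 ^ i ≤ M := by
      have h1 : (2 ^ i) ^ 3 ≤ M ^ 3 := by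
        calc (2 ^ i) ^ 3 = 8 ^ i := by rw [← pow_mul, mul_comm, pow_mul]; norm_num
          _ ≤ E.a m := h8
          _ ≤ M ^ 3 := hale
      exact (Nat.pow_le_pow_iff_left (by norm_num)).1 h1
    have hilog : i ≤ Nat.log 2 M := Nat.le_log_of_pow_le (by norm_num) h2i
    rw [Finset.mem_biUnion]
    refine ⟨i, Finset.mem_range.2 (by omega), ?_⟩
    refine Finset.mem_filter.2 ⟨hm.1, ?_, ?_, hm.2⟩
    · have : ((2 : ℝ) ^ i) ^ 3 = ((8 ^ i : ℕ) : ℝ) := by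
        push_cast
        rw [← pow_mul, mul_comm, pow_mul]; norm_num
      rw [this]
      exact_mod_cast h8
    · have : (2 * (2 : ℝ) ^ i) ^ 3 = ((8 ^ (i + 1) : ℕ) : ℝ) := by
        push_cast
        rw [← pow_succ', ← pow_mul, mul_comm, pow_mul]; norm_num
      rw [this]
      exact_mod_cast h8'.le
  calc (((range M).filter (fun m => (E.a (m + 1) : ℝ) - (E.a m : ℝ) ≤ h)).card : ℝ)
      ≤ (((range (Nat.log 2 M + 1)).biUnion (fun i => E.Blk M ((2 : ℝ) ^ i) h)).card : ℝ) := by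
        exact_mod_cast Finset.card_le_card hsub
    _ ≤ ∑ i ∈ range (Nat.log 2 M + 1), ((E.Blk M ((2 : ℝ) ^ i) h).card : ℝ) := by
        exact_mod_cast Finset.card_biUnion_le
    _ ≤ ∑ i ∈ range (Nat.log 2 M + 1), (5 * C + 17) *
          ((2 : ℝ) ^ i * ((h / ((2 : ℝ) ^ i) ^ 2) ^ (3 * σ / (4 + 3 * σ)) +
            (h / ((2 : ℝ) ^ i) ^ 3) ^ (σ / (6 + 3 * σ)))) :=
        Finset.sum_le_sum (fun i _ => E.blk_opt hσ0 hC0 hC M (by positivity) hh)
    _ = (5 * C + 17) * ((∑ i ∈ range (Nat.log 2 M + 1),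
            (2 : ℝ) ^ i * (h / ((2 : ℝ) ^ i) ^ 2) ^ (3 * σ / (4 + 3 * σ))) +
          (∑ i ∈ range (Nat.log 2 M + 1),
            (2 : ℝ) ^ i * (h / ((2 : ℝ) ^ i) ^ 3) ^ (σ / (6 + 3 * σ)))) := by
        rw [← Finset.mul_sum, ← Finset.sum_add_distrib]
        congr 1
        apply Finset.sum_congr rfl
        intro i _
        ring
    _ ≤ (5 * C + 17) * (C₂ * (M * (h / (M : ℝ) ^ 2) ^ (3 * σ / (4 + 3 * σ))) +
          C₃ * (M * (h / (M : ℝ) ^ 3) ^ (σ / (6 + 3 * σ)))) := by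
        have h4 := h₂ M h hM hh
        have h5 := h₃ M h hM hh
        gcongr
    _ ≤ (5 * C + 17) * (C₂ + C₃) * (M * ((h / (M : ℝ) ^ 2) ^ (3 * σ / (4 + 3 * σ)) +
          (h / (M : ℝ) ^ 3) ^ (σ / (6 + 3 * σ)))) := by
        have p1 : 0 ≤ (h / (M : ℝ) ^ 2) ^ (3 * σ / (4 + 3 * σ)) := by positivity
        have p2 : 0 ≤ (h / (M : ℝ) ^ 3) ^ (σ / (6 + 3 * σ)) := by positivity
        have p3 : 0 ≤ (M : ℝ) * (h / (M : ℝ) ^ 2) ^ (3 * σ / (4 + 3 * σ)) := by positivity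
        have p4 : 0 ≤ (M : ℝ) * (h / (M : ℝ) ^ 3) ^ (σ / (6 + 3 * σ)) := by positivity
        rw [mul_assoc]
        gcongr
        nlinarith

end Pool.Agent.Pow3
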