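import Mathlib

set_option autoImplicit false

/-! # Counting the triples `(x, y, z)` with `x ^ 3 * y ^ 4 * z ^ 5 ≤ Y ^ 3` (helper87) -/

namespace Pool.Agent.Pow3

/-- Triples `((y, z), x)` with `x ^ 3 * y ^ 4 * z ^ 5 ≤ Y ^ 3` and `W ≤ y * z ^ 2`. -/
noncomputable def Trip (N : ℕ) (W Y : ℝ) : Finset ((ℕ × ℕ) × ℕ) :=
  ((Finset.Icc 1 N ×ˢ Finset.Icc 1 N) ×ˢ Finset.Icc 1 N).filter
    (fun t => (t.2 : ℝ) ^ 3 * (t.1.1 : ℝ) ^ 4 * (t.1.2 : ℝ) ^ 5 ≤ Y ^ 3 ∧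
      W ≤ (t.1.1 : ℝ) * (t.1.2 : ℝ) ^ 2)

theorem card_le_of_le {N : ℕ} (B : ℝ) (hB : 0 ≤ B) :
    (((Finset.Icc 1 N).filter (fun x : ℕ => (x : ℝ) ≤ B)).card : ℝ) ≤ B := by
  have h1 : (Finset.Icc 1 N).filter (fun x : ℕ => (x : ℝ) ≤ B) ⊆ Finset.Icc 1 ⌊B⌋₊ := by
    intro x hx
    rw [Finset.mem_filter, Finset.mem_Icc] at hx
    rw [Finset.mem_Icc]
    exact ⟨hx.1.1, Nat.le_floor hx.2⟩
  have h2 := Finset.card_le_card h1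
  rw [Nat.card_Icc, Nat.add_sub_cancel] at h2
  calc (((Finset.Icc 1 N).filter (fun x : ℕ => (x : ℝ) ≤ B)).card : ℝ) ≤ (⌊B⌋₊ : ℝ) := by
        exact_mod_cast h2
    _ ≤ B := Nat.floor_le hB

theorem fiber_le (σ : ℝ) (hσ0 : 0 < σ) (N : ℕ) (W Y : ℝ) (hW : 1 ≤ W) (hY : 0 ≤ Y) (y z : ℕ)
    (hy : 1 ≤ y) (hz : 1 ≤ z) :
    (((Finset.Icc 1 N).filter (fun x : ℕ => (x : ℝ) ^ 3 * (y : ℝ) ^ 4 * (z : ℝ) ^ 5 ≤ Y ^ 3 ∧
      W ≤ (y : ℝ) * (z : ℝ) ^ 2)).card : ℝ) ≤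
      Y * W ^ (-σ) * ((1 / (y : ℝ) ^ (4 / 3 - σ)) * (1 / (z : ℝ) ^ (5 / 3 - 2 * σ))) := by
  have hW0 : (0 : ℝ) < W := by linarith
  have hy0 : (0 : ℝ) < y := by exact_mod_cast hy
  have hz0 : (0 : ℝ) < z := by exact_mod_cast hz
  set s : ℝ := (y : ℝ) ^ (1 / 3 : ℝ) with hs
  set t : ℝ := (z : ℝ) ^ (1 / 3 : ℝ) with ht
  have hs0 : 0 < s := Real.rpow_pos_of_pos hy0 _
  have ht0 : 0 < t := Real.rpow_pos_of_pos hz0 _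
  have hs3 : s ^ 3 = y := by
    rw [hs, ← Real.rpow_natCast, ← Real.rpow_mul hy0.le]; norm_num
  have ht3 : t ^ 3 = z := by
    rw [ht, ← Real.rpow_natCast, ← Real.rpow_mul hz0.le]; norm_num
  have hs4 : (y : ℝ) ^ (4 / 3 : ℝ) = s ^ 4 := by
    rw [hs, ← Real.rpow_natCast, ← Real.rpow_mul hy0.le]; norm_num
  have ht5 : (z : ℝ) ^ (5 / 3 : ℝ) = t ^ 5 := by
    rw [ht, ← Real.rpow_natCast, ← Real.rpow_mul hz0.le]; norm_num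
  set Ws : ℝ := W ^ σ with hWs
  set ys : ℝ := (y : ℝ) ^ σ with hys
  set zs : ℝ := (z : ℝ) ^ σ with hzs
  have hWs0 : 0 < Ws := Real.rpow_pos_of_pos hW0 _
  have hys0 : 0 < ys := Real.rpow_pos_of_pos hy0 _
  have hzs0 : 0 < zs := Real.rpow_pos_of_pos hz0 _
  have e1 : (y : ℝ) ^ (4 / 3 - σ) = s ^ 4 / ys := by
    rw [Real.rpow_sub hy0, hs4]
  have e2 : (z : ℝ) ^ (5 / 3 - 2 * σ) = t ^ 5 / zs ^ 2 := by
    have h : zs ^ 2 = (z : ℝ) ^ (2 * σ) := by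
      rw [hzs, ← Real.rpow_natCast, ← Real.rpow_mul hz0.le, mul_comm]
      norm_num
    rw [Real.rpow_sub hz0, ht5, h]
  have e3 : W ^ (-σ) = 1 / Ws := by
    rw [Real.rpow_neg hW0.le, one_div]
  rw [e1, e2, e3]
  have hR0 : 0 ≤ Y * (1 / Ws) * ((1 / (s ^ 4 / ys)) * (1 / (t ^ 5 / zs ^ 2))) := by positivity
  by_cases hw : W ≤ (y : ℝ) * (z : ℝ) ^ 2
  · have hWle : Ws ≤ ys * zs ^ 2 := by
      have h1 : Ws ≤ ((y : ℝ) * (z : ℝ) ^ 2) ^ σ := Real.rpow_le_rpow hW0.le hw hσ0.le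
      have h2 : ((y : ℝ) * (z : ℝ) ^ 2) ^ σ = ys * zs ^ 2 := by
        rw [Real.mul_rpow hy0.le (by positivity), pow_two (z : ℝ), Real.mul_rpow hz0.le hz0.le,
          pow_two]
      rwa [h2] at h1
    refine le_trans ?_ (card_le_of_le (N := N) _ hR0)
    have hsub : (Finset.Icc 1 N).filter
        (fun x : ℕ => (x : ℝ) ^ 3 * (y : ℝ) ^ 4 * (z : ℝ) ^ 5 ≤ Y ^ 3 ∧
          W ≤ (y : ℝ) * (z : ℝ) ^ 2) ⊆
        (Finset.Icc 1 N).filter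
          (fun x : ℕ => (x : ℝ) ≤ Y * (1 / Ws) * ((1 / (s ^ 4 / ys)) * (1 / (t ^ 5 / zs ^ 2)))) := by
      intro x hx
      rw [Finset.mem_filter] at hx ⊢
      refine ⟨hx.1, ?_⟩
      have h1 := hx.2.1
      have h2 : ((x : ℝ) * s ^ 4 * t ^ 5) ^ 3 ≤ Y ^ 3 := by
        calc ((x : ℝ) * s ^ 4 * t ^ 5) ^ 3 = (x : ℝ) ^ 3 * (s ^ 3) ^ 4 * (t ^ 3) ^ 5 := by ring
          _ = (x : ℝ) ^ 3 * (y : ℝ) ^ 4 * (z : ℝ) ^ 5 := by rw [hs3, ht3]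
          _ ≤ Y ^ 3 := h1
      have h3 : (x : ℝ) * s ^ 4 * t ^ 5 ≤ Y := le_of_pow_le_pow_left₀ (by norm_num) hY h2
      have h5 : (x : ℝ) * s ^ 4 * t ^ 5 * Ws ≤ Y * (ys * zs ^ 2) := by gcongr
      have h6 : (x : ℝ) = (x : ℝ) * s ^ 4 * t ^ 5 * Ws * (1 / (Ws * s ^ 4 * t ^ 5)) := by
        field_simp
      calc (x : ℝ) = (x : ℝ) * s ^ 4 * t ^ 5 * Ws * (1 / (Ws * s ^ 4 * t ^ 5)) := h6
        _ ≤ Y * (ys * zs ^ 2) * (1 / (Ws * s ^ 4 * t ^ 5)) := by gcongr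
        _ = Y * (1 / Ws) * ((1 / (s ^ 4 / ys)) * (1 / (t ^ 5 / zs ^ 2))) := by field_simp
    exact_mod_cast Finset.card_le_card hsub
  · have : (Finset.Icc 1 N).filter
        (fun x : ℕ => (x : ℝ) ^ 3 * (y : ℝ) ^ 4 * (z : ℝ) ^ 5 ≤ Y ^ 3 ∧
          W ≤ (y : ℝ) * (z : ℝ) ^ 2) = ∅ := by
      rw [Finset.filter_eq_empty_iff]
      intro x _ h
      exact hw h.2
    rw [this, Finset.card_empty, Nat.cast_zero]
    exact hR0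

theorem sum_le_zeta (N : ℕ) (p : ℝ) (hp : 1 < p) :
    ∑ y ∈ Finset.Icc 1 N, 1 / (y : ℝ) ^ p ≤ ∑' n : ℕ, 1 / (n : ℝ) ^ p := by
  apply Summable.sum_le_tsum
  · intro i _; positivity
  · exact Real.summable_one_div_nat_rpow.2 hp

/-- There are few 3-powerful numbers `x ^ 3 * y ^ 4 * z ^ 5` with large `y * z ^ 2`. -/
theorem count (σ : ℝ) (hσ0 : 0 < σ) (hσ : σ < 1 / 3) :
    ∃ C : ℝ, 0 < C ∧ ∀ (N : ℕ) (W Y : ℝ), 1 ≤ W → 0 ≤ Y →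
    ((Trip N W Y).card : ℝ) ≤ C * (Y * W ^ (-σ)) := by
  set Z₁ : ℝ := ∑' n : ℕ, 1 / (n : ℝ) ^ (4 / 3 - σ) with hZ₁
  set Z₂ : ℝ := ∑' n : ℕ, 1 / (n : ℝ) ^ (5 / 3 - 2 * σ) with hZ₂
  have hZ₁0 : 0 ≤ Z₁ := tsum_nonneg (fun i => by positivity)
  have hZ₂0 : 0 ≤ Z₂ := tsum_nonneg (fun i => by positivity)
  refine ⟨Z₁ * Z₂ + 1, by positivity, ?_⟩
  intro N W Y hW hY
  have hW0 : (0 : ℝ) < W := by linarith
  have hWs : 0 < W ^ (-σ) := Real.rpow_pos_of_pos hW0 _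
  have e1 : ((Trip N W Y).card : ℝ) = ∑ t ∈ Finset.Icc 1 N ×ˢ Finset.Icc 1 N,
      (((Finset.Icc 1 N).filter (fun x : ℕ => (x : ℝ) ^ 3 * (t.1 : ℝ) ^ 4 * (t.2 : ℝ) ^ 5 ≤ Y ^ 3 ∧
        W ≤ (t.1 : ℝ) * (t.2 : ℝ) ^ 2)).card : ℝ) := by
    unfold Trip
    rw [Finset.card_filter]
    push_cast
    rw [Finset.sum_product]
    apply Finset.sum_congr rfl
    intro t _
    rw [Finset.card_filter]
    push_cast
    rfl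
  rw [e1]
  calc _ ≤ ∑ t ∈ Finset.Icc 1 N ×ˢ Finset.Icc 1 N,
        Y * W ^ (-σ) * ((1 / (t.1 : ℝ) ^ (4 / 3 - σ)) * (1 / (t.2 : ℝ) ^ (5 / 3 - 2 * σ))) := by
        apply Finset.sum_le_sum
        intro t ht
        rw [Finset.mem_product, Finset.mem_Icc, Finset.mem_Icc] at ht
        exact fiber_le σ hσ0 N W Y hW hY t.1 t.2 ht.1.1 ht.2.1
    _ = Y * W ^ (-σ) * ((∑ y ∈ Finset.Icc 1 N, 1 / (y : ℝ) ^ (4 / 3 - σ)) *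
          (∑ z ∈ Finset.Icc 1 N, 1 / (z : ℝ) ^ (5 / 3 - 2 * σ))) := by
        rw [← Finset.mul_sum, Finset.sum_mul_sum, Finset.sum_product]
    _ ≤ Y * W ^ (-σ) * (Z₁ * Z₂) := by
        have h1 := sum_le_zeta N (4 / 3 - σ) (by linarith)
        have h2 := sum_le_zeta N (5 / 3 - 2 * σ) (by linarith)
        have h3 : 0 ≤ ∑ y ∈ Finset.Icc 1 N, 1 / (y : ℝ) ^ (4 / 3 - σ) :=
          Finset.sum_nonneg (fun i _ => by positivity)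
        have h4 : 0 ≤ ∑ y ∈ Finset.Icc 1 N, 1 / (y : ℝ) ^ (5 / 3 - 2 * σ) :=
          Finset.sum_nonneg (fun i _ => by positivity)
        gcongr
    _ ≤ (Z₁ * Z₂ + 1) * (Y * W ^ (-σ)) := by
        have h5 : 0 ≤ Y * W ^ (-σ) := by positivity
        nlinarith

theorem sum_cbrt (n : ℕ) :
    ∑ w ∈ Finset.Icc 1 n, 1 / (w : ℝ) ^ (1 / 3 : ℝ) ≤ 3 / 2 * ((n : ℝ) ^ (1 / 3 : ℝ)) ^ 2 := by
  induction n with
  | zero =>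
      simp
  | succ n ih =>
      rw [Finset.sum_Icc_succ_top (by omega)]
      set c : ℝ := ((n + 1 : ℕ) : ℝ) ^ (1 / 3 : ℝ) with hc
      set d : ℝ := (n : ℝ) ^ (1 / 3 : ℝ) with hd
      have hn0 : (0 : ℝ) ≤ n := Nat.cast_nonneg n
      have hn1 : (0 : ℝ) < ((n + 1 : ℕ) : ℝ) := by positivity
      have hc0 : 0 < c := Real.rpow_pos_of_pos hn1 _
      have hd0 : 0 ≤ d := Real.rpow_nonneg hn0 _
      have hc3 : c ^ 3 = n + 1 := by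
        rw [hc, ← Real.rpow_natCast, ← Real.rpow_mul hn1.le]; push_cast; norm_num
      have hd3 : d ^ 3 = n := by
        rw [hd, ← Real.rpow_natCast, ← Real.rpow_mul hn0]; norm_num
      have h1 : 1 / c ≤ 3 / 2 * (c ^ 2 - d ^ 2) := by
        rw [div_le_iff₀ hc0]
        have h2 : 0 ≤ (c - d) ^ 2 * (c + 2 * d) := by positivity
        have h3 : c ^ 3 - d ^ 3 = 1 := by rw [hc3, hd3]; ring
        nlinarith
      linarith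

end Pool.Agent.Pow3
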