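import Mathlib

set_option autoImplicit false

/-! # The number of close pairs `u ^ 3 * w < v ^ 3 * w'` with fixed `w, w'` (helper87) -/

namespace Pool.Agent.Pow3

/-- `u ^ 3 * w < v ^ 3 * w'` are close to each other and of size about `R ^ 3`. -/
structure Sol (R h : ℝ) (w w' u v : ℕ) : Prop where
  lo : R ^ 3 ≤ (u : ℝ) ^ 3 * w
  hi : (v : ℝ) ^ 3 * w' ≤ (3 * R) ^ 3
  lt : u ^ 3 * w < v ^ 3 * w'
  close : (v : ℝ) ^ 3 * w' - (u : ℝ) ^ 3 * w ≤ h

theorem geo {R h : ℝ} {w w' u v : ℕ} (hR : 0 < R) {a b : ℝ} (ha0 : 0 < a) (hb0 : 0 < b)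
    (ha : a ^ 3 = w) (hb : b ^ 3 = w') (S : Sol R h w w' u v) :
    R ≤ u * a ∧ u * a < v * b ∧ v * b ≤ 3 * R ∧ (v * b - u * a) * (3 * R ^ 2) ≤ h := by
  have hu0 : (0 : ℝ) ≤ u := Nat.cast_nonneg u
  have hv0 : (0 : ℝ) ≤ v := Nat.cast_nonneg v
  set x : ℝ := u * a with hx
  set y : ℝ := v * b with hy
  have hx0 : 0 ≤ x := by positivity
  have hy0 : 0 ≤ y := by positivity
  have ex : (u : ℝ) ^ 3 * w = x ^ 3 := by rw [hx, ← ha]; ring
  have ey : (v : ℝ) ^ 3 * w' = y ^ 3 := by rw [hy, ← hb]; ring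
  have h1 : R ≤ x := by
    apply le_of_pow_le_pow_left₀ (n := 3) (by norm_num) hx0
    rw [← ex]; exact S.lo
  have h2 : x < y := by
    apply lt_of_pow_lt_pow_left₀ 3 hy0
    rw [← ex, ← ey]; exact_mod_cast S.lt
  have h3 : y ≤ 3 * R := by
    apply le_of_pow_le_pow_left₀ (n := 3) (by norm_num) (by positivity)
    rw [← ey]; exact S.hi
  refine ⟨h1, h2, h3, ?_⟩
  have h4 : y ^ 3 - x ^ 3 ≤ h := by rw [← ex, ← ey]; exact S.close
  have h5 : y ^ 3 - x ^ 3 = (y - x) * (y ^ 2 + y * x + x ^ 2) := by ring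
  have h6 : 3 * R ^ 2 ≤ y ^ 2 + y * x + x ^ 2 := by nlinarith
  calc (y - x) * (3 * R ^ 2) ≤ (y - x) * (y ^ 2 + y * x + x ^ 2) := by
        apply mul_le_mul_of_nonneg_left h6; linarith
    _ = y ^ 3 - x ^ 3 := h5.symm
    _ ≤ h := h4

theorem det_le {R h : ℝ} {w w' u v u₀ v₀ : ℕ} (hR : 0 < R) {a b : ℝ} (ha0 : 0 < a)
    (hb0 : 0 < b) (ha : a ^ 3 = w) (hb : b ^ 3 = w') (S₀ : Sol R h w w' u₀ v₀)
    (S : Sol R h w w' u v) : |(u₀ : ℝ) * v - v₀ * u| ≤ h / (R * (a * b)) := by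
  obtain ⟨p1, p2, p3, p4⟩ := geo hR ha0 hb0 ha hb S₀
  obtain ⟨q1, q2, q3, q4⟩ := geo hR ha0 hb0 ha hb S
  rw [le_div_iff₀ (by positivity)]
  set x : ℝ := u * a with hx
  set y : ℝ := v * b with hy
  set x₀ : ℝ := u₀ * a with hx₀
  set y₀ : ℝ := v₀ * b with hy₀
  have e : |(u₀ : ℝ) * v - v₀ * u| * (R * (a * b)) = |x₀ * y - y₀ * x| * R := by
    have h1 : x₀ * y - y₀ * x = ((u₀ : ℝ) * v - v₀ * u) * (a * b) := by
      rw [hx, hy, hx₀, hy₀]; ring
    rw [h1, abs_mul, abs_of_pos (mul_pos ha0 hb0)]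
    ring
  rw [e]
  have h2 : x₀ * y - y₀ * x = x₀ * (y - x) - x * (y₀ - x₀) := by ring
  have hx0 : 0 < x := by linarith
  have hx00 : 0 < x₀ := by linarith
  have h3 : x₀ * (y - x) * R ≤ h := by
    calc x₀ * (y - x) * R ≤ (3 * R) * (y - x) * R := by
          apply mul_le_mul_of_nonneg_right _ hR.le
          apply mul_le_mul_of_nonneg_right _ (by linarith)
          linarith
      _ = (y - x) * (3 * R ^ 2) := by ring
      _ ≤ h := q4
  have h4 : x * (y₀ - x₀) * R ≤ h := by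
    calc x * (y₀ - x₀) * R ≤ (3 * R) * (y₀ - x₀) * R := by
          apply mul_le_mul_of_nonneg_right _ hR.le
          apply mul_le_mul_of_nonneg_right _ (by linarith)
          linarith
      _ = (y₀ - x₀) * (3 * R ^ 2) := by ring
      _ ≤ h := p4
  have h5 : 0 ≤ x₀ * (y - x) * R := by
    apply mul_nonneg (mul_nonneg hx00.le (by linarith)) hR.le
  have h6 : 0 ≤ x * (y₀ - x₀) * R := by
    apply mul_nonneg (mul_nonneg hx0.le (by linarith)) hR.le
  have e7 : |x₀ * y - y₀ * x| * R = |(x₀ * y - y₀ * x) * R| := by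
    rw [abs_mul, abs_of_pos hR]
  rw [e7, h2, sub_mul, abs_le]
  constructor <;> linarith

/-- The number of close pairs for fixed `w`, `w'`. -/
theorem card_sol {R h : ℝ} {w w' : ℕ} (hR : 0 < R) (hw : 1 ≤ w) (hw' : 1 ≤ w')
    (hh : 0 < h) (F : Finset ℕ) (U V : ℕ → ℕ) (hS : ∀ m ∈ F, Sol R h w w' (U m) (V m))
    (hV : Set.InjOn V F) :
    (F.card : ℝ) ≤ 6 * (h / (R * ((w : ℝ) ^ (1 / 3 : ℝ) * (w' : ℝ) ^ (1 / 3 : ℝ)))) +
      3 * h ^ (1 / 3 : ℝ) := by
  have hw0 : (0 : ℝ) < w := by exact_mod_cast hw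
  have hw0' : (0 : ℝ) < w' := by exact_mod_cast hw'
  set a : ℝ := (w : ℝ) ^ (1 / 3 : ℝ) with ha
  set b : ℝ := (w' : ℝ) ^ (1 / 3 : ℝ) with hb
  set c : ℝ := h ^ (1 / 3 : ℝ) with hc
  have ha0 : 0 < a := Real.rpow_pos_of_pos hw0 _
  have hb0 : 0 < b := Real.rpow_pos_of_pos hw0' _
  have hc0 : 0 < c := Real.rpow_pos_of_pos hh _
  have ha3 : a ^ 3 = w := by
    rw [ha, ← Real.rpow_natCast, ← Real.rpow_mul hw0.le]; norm_num
  have hb3 : b ^ 3 = w' := by
    rw [hb, ← Real.rpow_natCast, ← Real.rpow_mul hw0'.le]; norm_num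
  have hc3 : c ^ 3 = h := by
    rw [hc, ← Real.rpow_natCast, ← Real.rpow_mul hh.le]; norm_num
  rcases F.eq_empty_or_nonempty with rfl | hne
  · simp only [Finset.card_empty, Nat.cast_zero]
    positivity
  obtain ⟨m₀, hm₀⟩ := hne
  obtain ⟨m₁, hm₁, hmin⟩ := Finset.exists_min_image F V ⟨m₀, hm₀⟩
  have S₀ := hS m₀ hm₀
  have S₁ := hS m₁ hm₁
  set u₀ := U m₀ with hu₀
  set v₀ := V m₀ with hv₀
  have hv₀pos : 0 < v₀ := by
    rcases Nat.eq_zero_or_pos v₀ with h0 | h0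
    · exfalso
      have := S₀.lt
      rw [h0] at this
      simp at this
    · exact h0
  set g := Nat.gcd u₀ v₀ with hg
  have hgpos : 0 < g := Nat.gcd_pos_of_pos_right _ hv₀pos
  obtain ⟨r, s, hcop, hur, hvs⟩ := Nat.exists_coprime u₀ v₀
  rw [← hg] at hur hvs
  have hspos : 0 < s := by
    rcases Nat.eq_zero_or_pos s with h0 | h0
    · rw [h0] at hvs; omega
    · exact h0
  -- `g ≤ c`
  have hgc : (g : ℝ) ≤ c := by
    have h1 : g ^ 3 ∣ v₀ ^ 3 * w' - u₀ ^ 3 * w := by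
      apply Nat.dvd_sub
      · apply Dvd.dvd.mul_right
        exact pow_dvd_pow_of_dvd (Nat.gcd_dvd_right _ _) 3
      · apply Dvd.dvd.mul_right
        exact pow_dvd_pow_of_dvd (Nat.gcd_dvd_left _ _) 3
    have h2 : g ^ 3 ≤ v₀ ^ 3 * w' - u₀ ^ 3 * w := Nat.le_of_dvd (Nat.sub_pos_of_lt S₀.lt) h1
    have h3 : (g : ℝ) ^ 3 ≤ (v₀ : ℝ) ^ 3 * w' - (u₀ : ℝ) ^ 3 * w := by
      have h4 : g ^ 3 + u₀ ^ 3 * w ≤ v₀ ^ 3 * w' := by have := S₀.lt; omega
      have h5 : ((g ^ 3 + u₀ ^ 3 * w : ℕ) : ℝ) ≤ ((v₀ ^ 3 * w' : ℕ) : ℝ) := by exact_mod_cast h4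
      push_cast at h5
      linarith
    apply le_of_pow_le_pow_left₀ (n := 3) (by norm_num) hc0.le
    rw [hc3]
    exact h3.trans S₀.close
  set D : ℝ := h / (R * (a * b)) with hD
  have hD0 : 0 < D := by positivity
  have hg0 : (0 : ℝ) < g := by exact_mod_cast hgpos
  have hg1 : (1 : ℝ) ≤ g := by exact_mod_cast hgpos
  -- the two coordinates
  let j : ℕ → ℤ := fun m => (r : ℤ) * V m - s * U m
  let k : ℕ → ℕ := fun m => (V m - V m₁) / s
  set J : ℕ := ⌊D / g⌋₊ with hJ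
  have hj : ∀ m ∈ F, |j m| ≤ (J : ℤ) := by
    intro m hm
    have h1 := det_le hR ha0 hb0 ha3 hb3 S₀ (hS m hm)
    rw [← hD] at h1
    have h2 : (u₀ : ℝ) * V m - v₀ * U m = g * (j m : ℝ) := by
      rw [hur, hvs]
      simp only [j]
      push_cast
      ring
    rw [h2, abs_mul, abs_of_pos hg0] at h1
    have h3 : |(j m : ℝ)| ≤ D / g := by
      rw [le_div_iff₀ hg0]; linarith
    have h4 : ((|j m|.toNat : ℕ) : ℝ) ≤ D / g := by
      have h5 : ((|j m|.toNat : ℕ) : ℤ) = |j m| := Int.toNat_of_nonneg (abs_nonneg _)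
      have h6 : ((|j m|.toNat : ℕ) : ℝ) = ((|j m| : ℤ) : ℝ) := by exact_mod_cast h5
      rw [h6]; push_cast; exact h3
    have h7 : |j m|.toNat ≤ J := Nat.le_floor h4
    omega
  have hk : ∀ m ∈ F, k m ≤ 2 * g := by
    intro m hm
    obtain ⟨q1, q2, q3, q4⟩ := geo hR ha0 hb0 ha3 hb3 (hS m hm)
    obtain ⟨r1, r2, r3, r4⟩ := geo hR ha0 hb0 ha3 hb3 S₁
    obtain ⟨s1, s2, s3, s4⟩ := geo hR ha0 hb0 ha3 hb3 S₀
    have hmle := hmin m hm
    have h1 : ((V m : ℝ) - V m₁) * b ≤ 2 * R := by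
      have : ((V m : ℝ) - V m₁) * b = V m * b - V m₁ * b := by ring
      rw [this]; linarith
    have h2 : R ≤ (s : ℝ) * g * b := by
      have h3 : (v₀ : ℝ) = s * g := by exact_mod_cast hvs
      rw [← h3]; linarith
    have h4 : ((V m : ℝ) - V m₁) * b ≤ (2 * (s * g)) * b := by linarith
    have h5 : (V m : ℝ) - V m₁ ≤ 2 * (s * g) := le_of_mul_le_mul_right h4 hb0
    have h6 : V m - V m₁ ≤ 2 * g * s := by
      have h7 : V m ≤ V m₁ + 2 * g * s := by
        have : (V m : ℝ) ≤ V m₁ + 2 * g * s := by linarith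
        exact_mod_cast this
      omega
    calc k m = (V m - V m₁) / s := rfl
      _ ≤ 2 * g * s / s := Nat.div_le_div_right h6
      _ = 2 * g := Nat.mul_div_cancel _ hspos
  have hcard : F.card ≤ ((Finset.Icc (-(J : ℤ)) J) ×ˢ (Finset.range (2 * g + 1))).card := by
    apply Finset.card_le_card_of_injOn (fun m => (j m, k m))
    · intro m hm
      simp only [Finset.coe_product, Finset.coe_Icc, Finset.coe_range, Set.mem_prod, Set.mem_Icc,
        Set.mem_Iio]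
      have := abs_le.1 (hj m hm)
      exact ⟨⟨this.1, this.2⟩, Nat.lt_succ_of_le (hk m hm)⟩
    · intro m hm n hn hmn
      simp only [Prod.mk.injEq] at hmn
      obtain ⟨e1, e2⟩ := hmn
      apply hV hm hn
      -- `V m ≡ V n` modulo `s`
      have h1 : (s : ℤ) ∣ (V m : ℤ) - V n := by
        have h2 : (s : ℤ) ∣ (r : ℤ) * ((V m : ℤ) - V n) := by
          refine ⟨(U m : ℤ) - U n, ?_⟩
          simp only [j] at e1
          linarith
        have h3 : IsCoprime (s : ℤ) (r : ℤ) := by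
          rw [Int.isCoprime_iff_gcd_eq_one]
          simpa [Nat.coprime_iff_gcd_eq_one, Int.gcd, Nat.gcd_comm] using hcop
        exact h3.dvd_of_dvd_mul_left h2
      have hm' := hmin m hm
      have hn' := hmin n hn
      simp only [k] at e2
      have h4 : (V m - V m₁) % s = (V n - V m₁) % s := by
        have h5 : (V m - V m₁) ≡ (V n - V m₁) [MOD s] := by
          rw [← Int.natCast_modEq_iff]
          rw [Nat.cast_sub hm', Nat.cast_sub hn']
          rw [Int.modEq_iff_dvd]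
          have : (V n : ℤ) - V m₁ - ((V m : ℤ) - V m₁) = -((V m : ℤ) - V n) := by ring
          rw [this]
          exact (dvd_neg).2 h1
        exact h5
      have h6 : V m - V m₁ = V n - V m₁ := by
        rw [← Nat.div_add_mod (V m - V m₁) s, ← Nat.div_add_mod (V n - V m₁) s, e2, h4]
      omega
  have hcard2 : F.card ≤ (2 * J + 1) * (2 * g + 1) := by
    rw [Finset.card_product, Finset.card_range, Int.card_Icc] at hcard
    have : ((J : ℤ) + 1 - -(J : ℤ)).toNat = 2 * J + 1 := by omega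
    rwa [this] at hcard
  have hJle : (J : ℝ) ≤ D / g := Nat.floor_le (by positivity)
  have hcard3 : (F.card : ℝ) ≤ (2 * J + 1) * (2 * g + 1) := by exact_mod_cast hcard2
  calc (F.card : ℝ) ≤ (2 * J + 1) * (2 * g + 1) := hcard3
    _ ≤ (2 * (D / g) + 1) * (2 * g + 1) := by gcongr
    _ = 4 * D + 2 * (D / g) + (2 * g + 1) := by field_simp; ring
    _ ≤ 4 * D + 2 * D + 3 * g := by
        have : D / g ≤ D := div_le_self hD0.le hg1
        linarith
    _ ≤ 6 * D + 3 * c := by linarith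

end Pool.Agent.Pow3
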