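import Pool.Agent.Pow3.Rep
import Pool.Agent.Pow3.Count
import Pool.Agent.Pow3.Pair

set_option autoImplicit false

/-! # Few small gaps between 3-powerful numbers: one dyadic block (helper87) -/

namespace Pool.Agent.Pow3

open Finset

/-- The data of the enumeration together with a representation of every term. -/
structure Enum where
  a : ℕ → ℕ
  mono : StrictMono a
  x : ℕ → ℕ
  y : ℕ → ℕ
  z : ℕ → ℕ
  hx : ∀ m, 0 < x m
  hy : ∀ m, 0 < y m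
  hz : ∀ m, 0 < z m
  eq : ∀ m, a m = x m ^ 3 * y m ^ 4 * z m ^ 5
  le : ∀ m, a m ≤ (m + 1) ^ 3

theorem exists_enum {a : ℕ → ℕ} (ha : StrictMono a) (hr : ∀ n : ℕ, (∃ k : ℕ, a k = n) ↔ P3 n) :
    ∃ E : Enum, E.a = a := by
  have h : ∀ m, ∃ x y z : ℕ, 0 < x ∧ 0 < y ∧ 0 < z ∧ a m = x ^ 3 * y ^ 4 * z ^ 5 := fun m =>
    rep (a m) ((hr (a m)).1 ⟨m, rfl⟩)
  choose x y z h1 h2 h3 h4 using h
  exact ⟨⟨a, ha, x, y, z, h1, h2, h3, h4, enum_le ha hr⟩, rfl⟩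

namespace Enum

variable (E : Enum)

def w (m : ℕ) : ℕ := E.y m * E.z m ^ 2

def u (m : ℕ) : ℕ := E.x m * E.y m * E.z m

theorem w_pos (m : ℕ) : 1 ≤ E.w m :=
  Nat.mul_pos (E.hy m) (pow_pos (E.hz m) 2)

theorem eq_uw (m : ℕ) : E.a m = E.u m ^ 3 * E.w m := by
  rw [E.eq m]; unfold u w; ring

theorem eq_uwR (m : ℕ) : (E.a m : ℝ) = (E.u m : ℝ) ^ 3 * E.w m := by
  rw [E.eq_uw m]; push_cast; ring

theorem a_pos (m : ℕ) : 0 < E.a m := by
  have hx := E.hx m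
  have hy := E.hy m
  have hz := E.hz m
  rw [E.eq]; positivity

/-- The triple of the `m`-th number. -/
def tr (m : ℕ) : (ℕ × ℕ) × ℕ := ((E.y m, E.z m), E.x m)

theorem tr_inj {m n : ℕ} (h : E.tr m = E.tr n) : m = n := by
  apply E.mono.injective
  unfold tr at h
  simp only [Prod.mk.injEq] at h
  rw [E.eq m, E.eq n, h.1.1, h.1.2, h.2]

theorem tr_mem {m N : ℕ} {W Y : ℝ} (hN : E.a m ≤ N) (hY : (E.a m : ℝ) ≤ Y ^ 3)
    (hW : W ≤ (E.w m : ℝ)) : E.tr m ∈ Trip N W Y := by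
  have hx := E.hx m
  have hy := E.hy m
  have hz := E.hz m
  have e := E.eq m
  have a0 : 0 < E.a m := E.a_pos m
  have dx : E.x m ∣ E.a m := by
    rw [e]; exact Dvd.dvd.mul_right (Dvd.dvd.mul_right (dvd_pow_self _ (by norm_num)) _) _
  have dy : E.y m ∣ E.a m := by
    rw [e]; exact Dvd.dvd.mul_right (Dvd.dvd.mul_left (dvd_pow_self _ (by norm_num)) _) _
  have dz : E.z m ∣ E.a m := by
    rw [e]; exact Dvd.dvd.mul_left (dvd_pow_self _ (by norm_num)) _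
  unfold Trip tr
  rw [Finset.mem_filter]
  refine ⟨?_, ?_, ?_⟩
  · simp only [Finset.mem_product, Finset.mem_Icc]
    exact ⟨⟨⟨hy, (Nat.le_of_dvd a0 dy).trans hN⟩, hz, (Nat.le_of_dvd a0 dz).trans hN⟩,
      hx, (Nat.le_of_dvd a0 dx).trans hN⟩
  · rw [e] at hY
    push_cast at hY
    exact hY
  · unfold w at hW
    push_cast at hW
    exact hW

/-- The indices of small gaps in a dyadic block. -/
noncomputable def Blk (M : ℕ) (R h : ℝ) : Finset ℕ :=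
  (range M).filter (fun m => R ^ 3 ≤ (E.a m : ℝ) ∧ (E.a m : ℝ) ≤ (2 * R) ^ 3 ∧
    (E.a (m + 1) : ℝ) - (E.a m : ℝ) ≤ h)

noncomputable def BB (M : ℕ) (R W : ℝ) : Finset ℕ :=
  (range M).filter (fun m => (E.a m : ℝ) ≤ (2 * R) ^ 3 ∧ W ≤ (E.w m : ℝ))

noncomputable def BC (M : ℕ) (R W : ℝ) : Finset ℕ :=
  (range M).filter (fun m => (E.a (m + 1) : ℝ) ≤ (3 * R) ^ 3 ∧ W ≤ (E.w (m + 1) : ℝ))

noncomputable def BD (M : ℕ) (R h W : ℝ) : Finset ℕ :=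
  (E.Blk M R h).filter (fun m => (E.a (m + 1) : ℝ) ≤ (3 * R) ^ 3 ∧ (E.w m : ℝ) ≤ W ∧
    (E.w (m + 1) : ℝ) ≤ W)

theorem blk_subset {M : ℕ} {R h W : ℝ} (hR : 0 < R) (hh : h ≤ R ^ 3) :
    E.Blk M R h ⊆ (E.BB M R W ∪ E.BC M R W) ∪ E.BD M R h W := by
  intro m hm
  have hm' := Finset.mem_filter.1 hm
  have hnext : (E.a (m + 1) : ℝ) ≤ (3 * R) ^ 3 := by
    have h1 := hm'.2.2.1
    have h2 := hm'.2.2.2
    have h3 : 0 < R ^ 3 := by positivity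
    nlinarith
  simp only [Finset.mem_union]
  by_cases h2 : W ≤ (E.w m : ℝ)
  · exact Or.inl (Or.inl (Finset.mem_filter.2 ⟨hm'.1, hm'.2.2.1, h2⟩))
  by_cases h3 : W ≤ (E.w (m + 1) : ℝ)
  · exact Or.inl (Or.inr (Finset.mem_filter.2 ⟨hm'.1, hnext, h3⟩))
  · exact Or.inr (Finset.mem_filter.2 ⟨hm, hnext, (not_le.1 h2).le, (not_le.1 h3).le⟩)

theorem cardB {σ C : ℝ} (hC : ∀ (N : ℕ) (W Y : ℝ), 1 ≤ W → 0 ≤ Y →
    ((Trip N W Y).card : ℝ) ≤ C * (Y * W ^ (-σ))) (M : ℕ) {R W : ℝ} (hR : 0 < R) (hW : 1 ≤ W) :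
    ((E.BB M R W).card : ℝ) ≤ C * (2 * R * W ^ (-σ)) := by
  set N := ⌊(2 * R) ^ 3⌋₊ with hN
  have h1 : (E.BB M R W).card ≤ (Trip N W (2 * R)).card := by
    apply Finset.card_le_card_of_injOn E.tr
    · intro m hm
      have hm' := Finset.mem_filter.1 hm
      exact E.tr_mem (Nat.le_floor hm'.2.1) hm'.2.1 hm'.2.2
    · intro m _ n _ h
      exact E.tr_inj h
  calc ((E.BB M R W).card : ℝ) ≤ ((Trip N W (2 * R)).card : ℝ) := by exact_mod_cast h1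
    _ ≤ C * (2 * R * W ^ (-σ)) := hC _ _ _ hW (by positivity)

theorem cardC {σ C : ℝ} (hC : ∀ (N : ℕ) (W Y : ℝ), 1 ≤ W → 0 ≤ Y →
    ((Trip N W Y).card : ℝ) ≤ C * (Y * W ^ (-σ))) (M : ℕ) {R W : ℝ} (hR : 0 < R) (hW : 1 ≤ W) :
    ((E.BC M R W).card : ℝ) ≤ C * (3 * R * W ^ (-σ)) := by
  set N := ⌊(3 * R) ^ 3⌋₊ with hN
  have h1 : (E.BC M R W).card ≤ (Trip N W (3 * R)).card := by
    apply Finset.card_le_card_of_injOn (fun m => E.tr (m + 1))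
    · intro m hm
      have hm' := Finset.mem_filter.1 hm
      exact E.tr_mem (Nat.le_floor hm'.2.1) hm'.2.1 hm'.2.2
    · intro m _ n _ h
      have := E.tr_inj h
      omega
  calc ((E.BC M R W).card : ℝ) ≤ ((Trip N W (3 * R)).card : ℝ) := by exact_mod_cast h1
    _ ≤ C * (3 * R * W ^ (-σ)) := hC _ _ _ hW (by positivity)

theorem cardD (M : ℕ) {R h W : ℝ} (hR : 0 < R) (hh : 0 < h) (hW : 1 ≤ W) :
    ((E.BD M R h W).card : ℝ) ≤
      27 / 2 * (h / R) * (W ^ (1 / 3 : ℝ)) ^ 4 + 3 * W ^ 2 * h ^ (1 / 3 : ℝ) := by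
  classical
  set n : ℕ := ⌊W⌋₊ with hn
  have hW0 : 0 < W := by linarith
  have hnW : (n : ℝ) ≤ W := Nat.floor_le hW0.le
  have hfib : (E.BD M R h W).card = ∑ b ∈ Icc 1 n ×ˢ Icc 1 n,
      ((E.BD M R h W).filter (fun m => (E.w m, E.w (m + 1)) = b)).card := by
    apply Finset.card_eq_sum_card_fiberwise
    intro m hm
    have h := Finset.mem_filter.1 hm
    simp only [Finset.coe_product, Finset.coe_Icc, Set.mem_prod, Set.mem_Icc]
    exact ⟨⟨E.w_pos m, Nat.le_floor h.2.2.1⟩, ⟨E.w_pos (m + 1), Nat.le_floor h.2.2.2⟩⟩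
  have hterm : ∀ b ∈ Icc 1 n ×ˢ Icc 1 n,
      (((E.BD M R h W).filter (fun m => (E.w m, E.w (m + 1)) = b)).card : ℝ) ≤
        6 * (h / R) * ((1 / (b.1 : ℝ) ^ (1 / 3 : ℝ)) * (1 / (b.2 : ℝ) ^ (1 / 3 : ℝ))) +
          3 * h ^ (1 / 3 : ℝ) := by
    rintro ⟨w, w'⟩ hb
    rw [Finset.mem_product, Finset.mem_Icc, Finset.mem_Icc] at hb
    simp only at hb ⊢
    set F := (E.BD M R h W).filter (fun m => (E.w m, E.w (m + 1)) = (w, w')) with hF
    have hmem : ∀ m ∈ F, m ∈ E.BD M R h W ∧ E.w m = w ∧ E.w (m + 1) = w' := by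
      intro m hm
      have h := Finset.mem_filter.1 hm
      simp only [Prod.mk.injEq] at h
      exact ⟨h.1, h.2.1, h.2.2⟩
    have hinj : Set.InjOn (fun m => E.u (m + 1)) (F : Set ℕ) := by
      intro m hm n hn h
      have h1 := hmem m hm
      have h2 := hmem n hn
      simp only at h
      have h3 : E.a (m + 1) = E.a (n + 1) := by
        rw [E.eq_uw, E.eq_uw, h1.2.2, h2.2.2, h]
      have := E.mono.injective h3
      omega
    have key := card_sol (R := R) (h := h) (w := w) (w' := w') hR hb.1.1 hb.2.1 hh F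
      (fun m => E.u m) (fun m => E.u (m + 1)) ?_ hinj
    · refine key.trans (le_of_eq ?_)
      have hw0 : (0 : ℝ) < w := by exact_mod_cast hb.1.1
      have hw0' : (0 : ℝ) < w' := by exact_mod_cast hb.2.1
      have p1 : (w : ℝ) ^ (1 / 3 : ℝ) ≠ 0 := (Real.rpow_pos_of_pos hw0 _).ne'
      have p2 : (w' : ℝ) ^ (1 / 3 : ℝ) ≠ 0 := (Real.rpow_pos_of_pos hw0' _).ne'
      field_simp
    · intro m hm
      have h1 := hmem m hm
      have h2 := Finset.mem_filter.1 h1.1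
      have h3 := Finset.mem_filter.1 h2.1
      rw [← h1.2.1, ← h1.2.2]
      refine ⟨?_, ?_, ?_, ?_⟩
      · rw [← E.eq_uwR]; exact h3.2.1
      · rw [← E.eq_uwR]; exact h2.2.1
      · rw [← E.eq_uw, ← E.eq_uw]; exact E.mono (Nat.lt_succ_self m)
      · rw [← E.eq_uwR, ← E.eq_uwR]; exact h3.2.2.2
  have hsum := sum_cbrt n
  have hs0 : 0 ≤ ∑ w ∈ Icc 1 n, 1 / (w : ℝ) ^ (1 / 3 : ℝ) :=
    Finset.sum_nonneg (fun i _ => by positivity)
  have hnn : ((n : ℝ) ^ (1 / 3 : ℝ)) ≤ W ^ (1 / 3 : ℝ) :=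
    Real.rpow_le_rpow (Nat.cast_nonneg n) hnW (by norm_num)
  have hn0 : 0 ≤ (n : ℝ) ^ (1 / 3 : ℝ) := Real.rpow_nonneg (Nat.cast_nonneg n) _
  have hc0 : 0 < h ^ (1 / 3 : ℝ) := Real.rpow_pos_of_pos hh _
  rw [hfib]
  push_cast
  calc ∑ b ∈ Icc 1 n ×ˢ Icc 1 n,
        (((E.BD M R h W).filter (fun m => (E.w m, E.w (m + 1)) = b)).card : ℝ)
      ≤ ∑ b ∈ Icc 1 n ×ˢ Icc 1 n,
        (6 * (h / R) * ((1 / (b.1 : ℝ) ^ (1 / 3 : ℝ)) * (1 / (b.2 : ℝ) ^ (1 / 3 : ℝ))) +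
          3 * h ^ (1 / 3 : ℝ)) := Finset.sum_le_sum hterm
    _ = 6 * (h / R) * ((∑ w ∈ Icc 1 n, 1 / (w : ℝ) ^ (1 / 3 : ℝ)) *
          (∑ w ∈ Icc 1 n, 1 / (w : ℝ) ^ (1 / 3 : ℝ))) + 3 * (n : ℝ) ^ 2 * h ^ (1 / 3 : ℝ) := by
        rw [Finset.sum_add_distrib, ← Finset.mul_sum, Finset.sum_mul_sum, Finset.sum_product,
          Finset.sum_const, Finset.card_product, Nat.card_Icc, Nat.add_sub_cancel, nsmul_eq_mul]
        push_cast
        ring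
    _ ≤ 6 * (h / R) * ((3 / 2 * ((n : ℝ) ^ (1 / 3 : ℝ)) ^ 2) *
          (3 / 2 * ((n : ℝ) ^ (1 / 3 : ℝ)) ^ 2)) + 3 * (n : ℝ) ^ 2 * h ^ (1 / 3 : ℝ) := by
        gcongr
    _ = 27 / 2 * (h / R) * ((n : ℝ) ^ (1 / 3 : ℝ)) ^ 4 + 3 * (n : ℝ) ^ 2 * h ^ (1 / 3 : ℝ) := by
        ring
    _ ≤ 27 / 2 * (h / R) * (W ^ (1 / 3 : ℝ)) ^ 4 + 3 * W ^ 2 * h ^ (1 / 3 : ℝ) := by
        gcongr

/-- One dyadic block, free parameter `W`. -/
theorem blk_le {σ C : ℝ} (hC : ∀ (N : ℕ) (W Y : ℝ), 1 ≤ W → 0 ≤ Y →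
    ((Trip N W Y).card : ℝ) ≤ C * (Y * W ^ (-σ))) (M : ℕ) {R h W : ℝ} (hR : 0 < R)
    (hh : 0 < h) (hhR : h ≤ R ^ 3) (hW : 1 ≤ W) :
    ((E.Blk M R h).card : ℝ) ≤ 5 * C * (R * W ^ (-σ)) +
      (27 / 2 * (h / R) * (W ^ (1 / 3 : ℝ)) ^ 4 + 3 * W ^ 2 * h ^ (1 / 3 : ℝ)) := by
  have hB := E.cardB hC M hR hW
  have hCc := E.cardC hC M hR hW
  have hD := E.cardD M hR hh hW
  have hun : (E.Blk M R h).card ≤ (E.BB M R W).card + (E.BC M R W).card +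
      (E.BD M R h W).card := by
    calc (E.Blk M R h).card ≤ ((E.BB M R W ∪ E.BC M R W) ∪ E.BD M R h W).card :=
          Finset.card_le_card (E.blk_subset hR hhR)
      _ ≤ (E.BB M R W ∪ E.BC M R W).card + (E.BD M R h W).card :=
          Finset.card_union_le _ _
      _ ≤ (E.BB M R W).card + (E.BC M R W).card + (E.BD M R h W).card := by
          gcongr; exact Finset.card_union_le _ _
  have hun' : ((E.Blk M R h).card : ℝ) ≤ (E.BB M R W).card + (E.BC M R W).card +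
      (E.BD M R h W).card := by exact_mod_cast hun
  nlinarith

/-- One dyadic block, trivial bound. -/
theorem blk_triv {σ C : ℝ} (hC : ∀ (N : ℕ) (W Y : ℝ), 1 ≤ W → 0 ≤ Y →
    ((Trip N W Y).card : ℝ) ≤ C * (Y * W ^ (-σ))) (M : ℕ) {R h : ℝ} (hR : 0 < R) :
    ((E.Blk M R h).card : ℝ) ≤ 2 * C * R := by
  have hB := E.cardB hC M hR (le_refl (1 : ℝ))
  rw [Real.one_rpow] at hB
  have hsub : E.Blk M R h ⊆ E.BB M R 1 := by
    intro m hm
    have hm' := Finset.mem_filter.1 hm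
    refine Finset.mem_filter.2 ⟨hm'.1, hm'.2.2.1, ?_⟩
    exact_mod_cast E.w_pos m
  calc ((E.Blk M R h).card : ℝ) ≤ ((E.BB M R 1).card : ℝ) := by
        exact_mod_cast Finset.card_le_card hsub
    _ ≤ C * (2 * R * 1) := hB
    _ = 2 * C * R := by ring

/-- One dyadic block, `W` chosen optimally. -/
theorem blk_opt {σ C : ℝ} (hσ : 0 < σ) (hC0 : 0 < C) (hC : ∀ (N : ℕ) (W Y : ℝ), 1 ≤ W → 0 ≤ Y →
    ((Trip N W Y).card : ℝ) ≤ C * (Y * W ^ (-σ))) (M : ℕ) {R h : ℝ} (hR : 0 < R)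
    (hh : 0 < h) :
    ((E.Blk M R h).card : ℝ) ≤ (5 * C + 17) *
      (R * ((h / R ^ 2) ^ (3 * σ / (4 + 3 * σ)) + (h / R ^ 3) ^ (σ / (6 + 3 * σ)))) := by
  have hp : 0 < 4 + 3 * σ := by linarith
  have hq : 0 < 6 + 3 * σ := by linarith
  set A : ℝ := (R ^ 2 / h) ^ (3 / (4 + 3 * σ)) with hA
  set B : ℝ := (R ^ 3 / h) ^ (1 / (6 + 3 * σ)) with hB
  have hx0 : 0 < R ^ 2 / h := by positivity
  have hy0 : 0 < R ^ 3 / h := by positivity
  have hA0 : 0 < A := Real.rpow_pos_of_pos hx0 _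
  have hB0 : 0 < B := Real.rpow_pos_of_pos hy0 _
  have hAσ : A ^ (-σ) = (h / R ^ 2) ^ (3 * σ / (4 + 3 * σ)) := by
    rw [hA, ← Real.rpow_mul hx0.le]
    have : 3 / (4 + 3 * σ) * -σ = -(3 * σ / (4 + 3 * σ)) := by ring
    rw [this, Real.rpow_neg hx0.le, ← Real.inv_rpow hx0.le, inv_div]
  have hBσ : B ^ (-σ) = (h / R ^ 3) ^ (σ / (6 + 3 * σ)) := by
    rw [hB, ← Real.rpow_mul hy0.le]
    have : 1 / (6 + 3 * σ) * -σ = -(σ / (6 + 3 * σ)) := by ring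
    rw [this, Real.rpow_neg hy0.le, ← Real.inv_rpow hy0.le, inv_div]
  rw [← hAσ, ← hBσ]
  set W : ℝ := min A B with hW
  have hW0 : 0 < W := lt_min hA0 hB0
  have hWs0 : 0 < W ^ (-σ) := Real.rpow_pos_of_pos hW0 _
  have hAs0 : 0 < A ^ (-σ) := Real.rpow_pos_of_pos hA0 _
  have hBs0 : 0 < B ^ (-σ) := Real.rpow_pos_of_pos hB0 _
  have hWs : W ^ (-σ) ≤ A ^ (-σ) + B ^ (-σ) := by
    rcases min_choice A B with h1 | h1
    · rw [hW, h1]; linarith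
    · rw [hW, h1]; linarith
  suffices hmain : ((E.Blk M R h).card : ℝ) ≤ (5 * C + 17) * (R * W ^ (-σ)) by
    refine hmain.trans ?_
    gcongr
  by_cases hW1 : 1 ≤ W
  · have hhR : h ≤ R ^ 3 := by
      by_contra hcon
      have h1 : R ^ 3 / h < 1 := by
        rw [div_lt_one hh]; exact not_le.1 hcon
      have h2 : B < 1 := Real.rpow_lt_one hy0.le h1 (by positivity)
      have h3 : W ≤ B := min_le_right _ _
      linarith
    have h1 := E.blk_le hC M hR hh hhR hW1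
    -- the second term
    have hWσ : W ^ (-σ) = (W ^ σ)⁻¹ := Real.rpow_neg hW0.le σ
    have hWσ0 : 0 < W ^ σ := Real.rpow_pos_of_pos hW0 _
    have h2 : (h / R) * (W ^ (1 / 3 : ℝ)) ^ 4 ≤ R * W ^ (-σ) := by
      have h3 : (W ^ (1 / 3 : ℝ)) ^ 4 = W ^ (4 / 3 : ℝ) := by
        rw [← Real.rpow_natCast, ← Real.rpow_mul hW0.le]; norm_num
      have h4 : W ^ (4 / 3 : ℝ) * W ^ σ ≤ R ^ 2 / h := by
        rw [← Real.rpow_add hW0]
        calc W ^ (4 / 3 + σ : ℝ) ≤ A ^ (4 / 3 + σ : ℝ) :=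
              Real.rpow_le_rpow hW0.le (min_le_left _ _) (by linarith)
          _ = R ^ 2 / h := by
              rw [hA, ← Real.rpow_mul hx0.le]
              have : 3 / (4 + 3 * σ) * (4 / 3 + σ) = 1 := by field_simp
              rw [this, Real.rpow_one]
      rw [h3, hWσ]
      rw [← div_eq_mul_inv, le_div_iff₀ hWσ0]
      calc h / R * W ^ (4 / 3 : ℝ) * W ^ σ = h / R * (W ^ (4 / 3 : ℝ) * W ^ σ) := by ring
        _ ≤ h / R * (R ^ 2 / h) := by gcongr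
        _ = R := by field_simp
    have h5 : W ^ 2 * h ^ (1 / 3 : ℝ) ≤ R * W ^ (-σ) := by
      have h6 : W ^ 2 * W ^ σ ≤ (R ^ 3 / h) ^ (1 / 3 : ℝ) := by
        rw [← Real.rpow_natCast W 2, ← Real.rpow_add hW0]
        calc W ^ (((2 : ℕ) : ℝ) + σ : ℝ) ≤ B ^ (((2 : ℕ) : ℝ) + σ : ℝ) := by
              apply Real.rpow_le_rpow hW0.le (min_le_right _ _)
              push_cast; linarith
          _ = (R ^ 3 / h) ^ (1 / 3 : ℝ) := by
              rw [hB, ← Real.rpow_mul hy0.le]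
              congr 1
              push_cast
              field_simp
              ring
      have h7 : (R ^ 3 / h) ^ (1 / 3 : ℝ) = R / h ^ (1 / 3 : ℝ) := by
        rw [Real.div_rpow (by positivity) hh.le, ← Real.rpow_natCast R 3, ← Real.rpow_mul hR.le]
        norm_num
      have hc0 : 0 < h ^ (1 / 3 : ℝ) := Real.rpow_pos_of_pos hh _
      rw [hWσ, ← div_eq_mul_inv, le_div_iff₀ hWσ0]
      rw [h7, le_div_iff₀ hc0] at h6
      calc W ^ 2 * h ^ (1 / 3 : ℝ) * W ^ σ = W ^ 2 * W ^ σ * h ^ (1 / 3 : ℝ) := by ring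
        _ ≤ R := h6
    nlinarith
  · have h1 := E.blk_triv hC M (h := h) hR
    have h2 : 1 ≤ W ^ (-σ) := by
      apply Real.one_le_rpow_of_pos_of_le_one_of_nonpos hW0 (not_le.1 hW1).le (by linarith)
    calc ((E.Blk M R h).card : ℝ) ≤ 2 * C * R := h1
      _ = 2 * C * (R * 1) := by ring
      _ ≤ (5 * C + 17) * (R * W ^ (-σ)) := by
          gcongr
          linarith

end Enum

end Pool.Agent.Pow3
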