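import Mathlib

set_option autoImplicit false

/-! # 3-powerful numbers: the form `x ^ 3 * y ^ 4 * z ^ 5` and `a k ≤ (k + 1) ^ 3` (helper87) -/

namespace Pool.Agent.Pow3

/-- `n` is 3-powerful. -/
def P3 (n : ℕ) : Prop := 0 < n ∧ ∀ p : ℕ, Nat.Prime p → p ∣ n → p ^ 3 ∣ n

theorem rep_prime_pow (p e : ℕ) (hp : p.Prime) (he : 0 < e) (h : P3 (p ^ e)) :
    ∃ x y z : ℕ, 0 < x ∧ 0 < y ∧ 0 < z ∧ p ^ e = x ^ 3 * y ^ 4 * z ^ 5 := by
  have h3 : 3 ≤ e := by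
    have h1 := h.2 p hp (dvd_pow_self p he.ne')
    exact (Nat.pow_dvd_pow_iff_le_right hp.one_lt).1 h1
  have hpos : 0 < p := hp.pos
  obtain ⟨k, hk | hk | hk⟩ : ∃ k, e = 3 * k ∨ e = 3 * k + 4 ∨ e = 3 * k + 5 := by
    have : e % 3 = 0 ∨ e % 3 = 1 ∨ e % 3 = 2 := by omega
    rcases this with h | h | h
    · exact ⟨e / 3, Or.inl (by omega)⟩
    · exact ⟨(e - 4) / 3, Or.inr (Or.inl (by omega))⟩
    · exact ⟨(e - 5) / 3, Or.inr (Or.inr (by omega))⟩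
  · refine ⟨p ^ k, 1, 1, pow_pos hpos _, one_pos, one_pos, ?_⟩
    rw [hk]; ring
  · refine ⟨p ^ k, p, 1, pow_pos hpos _, hpos, one_pos, ?_⟩
    rw [hk]; ring
  · refine ⟨p ^ k, 1, p, pow_pos hpos _, one_pos, hpos, ?_⟩
    rw [hk]; ring

theorem P3.left {a b : ℕ} (hab : Nat.Coprime a b) (ha : 0 < a) (h : P3 (a * b)) : P3 a := by
  refine ⟨ha, fun p hp hpa => ?_⟩
  have h1 := h.2 p hp (Dvd.dvd.mul_right hpa b)
  have h2 : Nat.Coprime (p ^ 3) b := (Nat.Coprime.coprime_dvd_left hpa hab).pow_left 3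
  exact h2.dvd_of_dvd_mul_right h1

/-- Every 3-powerful number is `x ^ 3 * y ^ 4 * z ^ 5`. -/
theorem rep (n : ℕ) : P3 n → ∃ x y z : ℕ, 0 < x ∧ 0 < y ∧ 0 < z ∧ n = x ^ 3 * y ^ 4 * z ^ 5 := by
  induction n using Nat.recOnPosPrimePosCoprime with
  | prime_pow p e hp he => exact rep_prime_pow p e hp he
  | zero => intro h; exact absurd h.1 (lt_irrefl 0)
  | one => intro _; exact ⟨1, 1, 1, one_pos, one_pos, one_pos, by norm_num⟩
  | coprime a b ha hb hab iha ihb =>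
      intro h
      obtain ⟨x, y, z, hx, hy, hz, e⟩ := iha (P3.left hab (by omega) h)
      obtain ⟨x', y', z', hx', hy', hz', e'⟩ :=
        ihb (P3.left hab.symm (by omega) (by rwa [mul_comm] at h))
      refine ⟨x * x', y * y', z * z', Nat.mul_pos hx hx', Nat.mul_pos hy hy',
        Nat.mul_pos hz hz', ?_⟩
      rw [e, e']; ring

theorem P3_cube (k : ℕ) (hk : 0 < k) : P3 (k ^ 3) := by
  refine ⟨pow_pos hk 3, fun p hp h => ?_⟩
  exact pow_dvd_pow_of_dvd (hp.dvd_of_dvd_pow h) 3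

/-- The `k`-th 3-powerful number is at most `(k + 1) ^ 3`. -/
theorem enum_le {a : ℕ → ℕ} (ha : StrictMono a) (hr : ∀ n : ℕ, (∃ k : ℕ, a k = n) ↔ P3 n)
    (m : ℕ) : a m ≤ (m + 1) ^ 3 := by
  have h1 : ∀ k : ℕ, ∃ j : ℕ, a j = (k + 1) ^ 3 := fun k => (hr _).2 (P3_cube _ (Nat.succ_pos k))
  choose j hj using h1
  have hmono : StrictMono j := by
    intro k l hkl
    apply ha.lt_iff_lt.1
    rw [hj, hj]
    exact Nat.pow_lt_pow_left (by omega) (by norm_num)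
  have h2 : m ≤ j m := hmono.le_apply
  calc a m ≤ a (j m) := ha.monotone h2
    _ = (m + 1) ^ 3 := hj m

end Pool.Agent.Pow3
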